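import Mathlib
import Pool.Agent.H548Z.CovDefs
import Pool.Agent.H548Z.CovMain

set_option autoImplicit false

namespace Pool.Agent.Results.MP_6504f0_pr.ACoverComparison

open MeasureTheory Pool.Agent.H548Z.CovDefs

/-- There is a universal constant `C` such that on every finite connected graph, for all
`μ, p ∈ (0, 1]` and every initial state, the expected cover time of random walk on dynamical
percolation is at most `C / (μ p)` times the worst-case expected cover time of simple random walk. -/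
theorem result : ∃ C : ℝ, 0 < C ∧ ∀ (V : Type) [Fintype V] [DecidableEq V] (G : SimpleGraph V)
    [DecidableRel G.Adj], G.Connected → ∀ μ ∈ Set.Ioc (0 : ℝ) 1, ∀ p ∈ Set.Ioc (0 : ℝ) 1,
    ∀ (s₀ : St G) (Ω : Type) [MeasurableSpace Ω] (P : Measure Ω) (Y : ℝ → Ω → St G),
      IsDynPerc G μ p s₀ P Y →
        ∫⁻ ω, coverTime (fun t => (Y t ω).1) ∂P ≤ ENNReal.ofReal (C / (μ * p)) * srwCover G :=
  ⟨Pool.Agent.H548Z.Cov.CC, Pool.Agent.H548Z.Cov.CC_pos, fun _ _ _ _ _ hc _ hμ _ hp _ _ _ _ _ h =>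
    Pool.Agent.H548Z.Cov.main hc hμ.1 hμ.2 hp.1 hp.2 h⟩

end Pool.Agent.Results.MP_6504f0_pr.ACoverComparison
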